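import Mathlib
import Pool.Agent.Run7.h4.YM.Lower
import Pool.Agent.Run7.h4.YM.Upper2

/-!
# Confinement at arbitrarily weak coupling for `SU(N)` on `R^2 x T^2` with 't Hooft flux

Four dimensional `SU(N)` lattice gauge theory with the Wilson action on the periodic lattice with
sides `n, L, l, l`, with a 't Hooft twist (magnetic flux) `k` coprime to `N` through the torus of
side `l` in the directions `2, 3`, the fixed side `l ≥ 1` being arbitrary. All definitions are in
`Pool.Agent.Run7.h4.YM.Defs`: `SU N`, `Site`, `Link`, `dir`, `plaq`, `twist`, `action`, `line`,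
`expect`, `polyakov`.

The correlation of two Polyakov loops at distance `R` on the torus with sides `n` and `L` in the
directions `0, 1` lies between `exp (- n (ε + e^{- c β} R)) / N ^ 2` and
`exp (- n e^{- 4 N l² β} R)`, uniformly in `n` and `L`: the static potential `V(R)` satisfies
`e^{- 4 N l² β} R ≤ V(R) ≤ ε + e^{- c β} R`. So there is a linear confining potential at every
coupling, and at weak coupling the string tension is exponentially small.
-/

open MeasureTheory Matrix

namespace Pool.Agent.Results.MP_7f377f_mp.TwistedTorusConfinement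

open Run7.h4.YM

theorem result (N l k : ℕ) [NeZero N] [NeZero l] (hN : 2 ≤ N) (hk : Nat.Coprime k N)
    [MeasurableSpace (SU N)] [BorelSpace (SU N)] (μ : Measure (SU N)) [IsProbabilityMeasure μ]
    [μ.IsHaarMeasure] :
    (∀ β : ℝ, 0 ≤ β → ∀ (m m' : ℕ) [NeZero m] [NeZero m'] (R : ℕ), R ≤ m' →
      polyakov (2 * m) (2 * m') l μ k β R ≤
        Real.exp (-(Real.exp (-(4 * N * (l : ℝ) ^ 2 * β)) * (2 * m : ℕ) * R))) ∧
    ∃ c : ℝ, 0 < c ∧ ∀ ε : ℝ, 0 < ε → ∃ β0 : ℝ, 0 < β0 ∧ ∀ β : ℝ, β0 ≤ β →
      ∀ (m m' : ℕ) [NeZero m] [NeZero m'] (r : ℕ), 0 < r → r ≤ m' →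
        Real.exp (-((2 * m : ℕ) * (ε + Real.exp (-(c * β)) * (2 * r : ℕ)))) / (N : ℝ) ^ 2 ≤
          polyakov (2 * m) (2 * m') l μ k β (2 * r) := by
  have h1 := inv_inv' μ
  refine ⟨fun β hβ m m' _ _ R hR => ?_, lower N l k hk μ⟩
  exact upper (om_prim hk) μ hN hR hβ

end Pool.Agent.Results.MP_7f377f_mp.TwistedTorusConfinement
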